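import Pool.Agent.Y553.PL.Stm

/-!
# Project PL, task PRES: coordinates of the coding part (helper87)
-/

set_option autoImplicit false

namespace Pool.Agent.Y87.PL

open Pool.Agent.Y553.PL

variable {V : Type}

theorem exists_alpha [Finite V] (G : CG V) (h : Ax G) :
    ∃ α : Fin (Nat.card {v // v ∈ G.colour 1}) → V, Set.BijOn α Set.univ (G.colour 1) ∧
      ∀ i j, Lt G (α i) (α j) ↔ i < j := by
  classical
  let A := {v // v ∈ G.colour 1}
  letI : LinearOrder A :=
    { le := fun a b => a = b ∨ Lt G a.1 b.1
      lt := fun a b => Lt G a.1 b.1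
      le_refl := fun a => Or.inl rfl
      le_trans := by
        rintro a b c (rfl | h1) (rfl | h2)
        · exact Or.inl rfl
        · exact Or.inr h2
        · exact Or.inr h1
        · exact Or.inr (h.lt_trans _ a.2 _ b.2 _ c.2 h1 h2)
      lt_iff_le_not_ge := by
        intro a b
        constructor
        · intro hab
          refine ⟨Or.inr hab, ?_⟩
          rintro (rfl | h1)
          · exact h.lt_irr _ b.2 hab
          · exact h.lt_irr _ a.2 (h.lt_trans _ a.2 _ b.2 _ a.2 hab h1)
        · rintro ⟨rfl | h1, h2⟩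
          · exact absurd (Or.inl rfl) h2
          · exact h1
      le_antisymm := by
        rintro a b (rfl | h1) (h2 | h2)
        · rfl
        · rfl
        · exact h2.symm
        · exact absurd (h.lt_trans _ a.2 _ b.2 _ a.2 h1 h2) (h.lt_irr _ a.2)
      le_total := by
        intro a b
        rcases h.lt_tot _ a.2 _ b.2 with h1 | h1 | h1
        · exact Or.inl (Or.inl (Subtype.ext h1))
        · exact Or.inl (Or.inr h1)
        · exact Or.inr (Or.inr h1)
      toDecidableLE := Classical.decRel _ }
  have : Fintype A := Fintype.ofFinite A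
  let e : Fin (Nat.card A) ≃o A := Fintype.orderIsoFinOfCardEq A (Nat.card_eq_fintype_card).symm
  refine ⟨fun i => (e i).1, ⟨fun i _ => (e i).2, fun i _ j _ hij => ?_, fun v hv => ?_⟩, ?_⟩
  · exact e.injective (Subtype.ext hij)
  · obtain ⟨i, hi⟩ := e.surjective ⟨v, hv⟩
    exact ⟨i, Set.mem_univ _, congrArg Subtype.val hi⟩
  · intro i j
    exact e.lt_iff_lt

theorem exists_beta [Finite V] (G : CG V) :
    ∃ β : Fin (Nat.card {v // v ∈ G.colour 2}) → V, Set.BijOn β Set.univ (G.colour 2) := by
  let e := (Finite.equivFin {v // v ∈ G.colour 2}).symm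
  refine ⟨fun i => (e i).1, fun i _ => (e i).2, fun i _ j _ hij => ?_, fun v hv => ?_⟩
  · exact e.injective (Subtype.ext hij)
  · obtain ⟨i, hi⟩ := e.surjective ⟨v, hv⟩
    exact ⟨i, Set.mem_univ _, congrArg Subtype.val hi⟩

theorem t_PRES : St_PRES := by
  classical
  intro V _ G h
  obtain ⟨α, hα, hlt⟩ := exists_alpha G h
  obtain ⟨β, hβ⟩ := exists_beta G
  have hαm : ∀ i, α i ∈ G.colour 1 := fun i => hα.mapsTo (Set.mem_univ i)
  have hβm : ∀ i, β i ∈ G.colour 2 := fun i => hβ.mapsTo (Set.mem_univ i)
  have hαi : ∀ i j, α i = α j → i = j := fun i j hij =>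
    hα.injOn (Set.mem_univ i) (Set.mem_univ j) hij
  have hβi : ∀ i j, β i = β j → i = j := fun i j hij =>
    hβ.injOn (Set.mem_univ i) (Set.mem_univ j) hij
  have hαs : ∀ a ∈ G.colour 1, ∃ i, α i = a := fun a ha => by
    obtain ⟨i, -, hi⟩ := hα.surjOn ha
    exact ⟨i, hi⟩
  have hβs : ∀ b ∈ G.colour 2, ∃ j, β j = b := fun b hb => by
    obtain ⟨j, -, hj⟩ := hβ.surjOn hb
    exact ⟨j, hj⟩
  refine ⟨Nat.card {v // v ∈ G.colour 1}, Nat.card {v // v ∈ G.colour 2}, ?_, ⟨?_⟩⟩
  rotate_left
  · -- the sequences
    have hw : ∀ g : Fin (Nat.card {v // v ∈ G.colour 1}) → Fin (Nat.card {v // v ∈ G.colour 2}),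
        ∃ w, w ∈ G.colour 4 ∧ ∀ i j, Arr G w (α i) (β j) ↔ g i = j := by
      intro g
      have key : ∀ s : Finset (Fin (Nat.card {v // v ∈ G.colour 1})),
          ∃ w, w ∈ G.colour 4 ∧ ∀ i ∈ s, ∀ j, Arr G w (α i) (β j) ↔ g i = j := by
        intro s
        induction s using Finset.induction_on with
        | empty =>
          obtain ⟨w, hw⟩ := h.wne
          exact ⟨w, hw, fun i hi => absurd hi (Finset.notMem_empty i)⟩
        | insert i₀ s hi₀ ih =>
          obtain ⟨w, hw, hws⟩ := ih
          obtain ⟨w', hw', h1, h2⟩ := h.upd w hw (α i₀) (hαm i₀) (β (g i₀)) (hβm _)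
          refine ⟨w', hw', ?_⟩
          intro i hi j
          by_cases hii : i = i₀
          · subst hii
            constructor
            · intro h3
              exact hβi _ _ (h.valu w' hw' (α i) (hαm i) _ (hβm _) _ (hβm _) h1 h3)
            · rintro rfl
              exact h1
          · rw [h2 (α i) (hαm i) (fun h3 => hii (hαi _ _ h3)) (β j) (hβm j)]
            exact hws i ((Finset.mem_insert.1 hi).resolve_left hii) j
      obtain ⟨w, hw, hws⟩ := key Finset.univ
      exact ⟨w, hw, fun i j => hws i (Finset.mem_univ i) j⟩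
    choose w hw1 hw2 using hw
    have hacc : ∀ z q x, ∃ y, Acc G (β z) (β q) (β x) (β y) := by
      intro z q x
      obtain ⟨y, hy, h1⟩ := h.acct _ (hβm z) _ (hβm q) _ (hβm x)
      obtain ⟨j, rfl⟩ := hβs y hy
      exact ⟨j, h1⟩
    choose acc hacc using hacc
    exact
      { α := α
        β := β
        w := w
        α_bij := hα
        β_bij := hβ
        w_bij := by
          refine ⟨fun g _ => hw1 g, fun g _ g' _ hg => ?_, fun w' hw' => ?_⟩
          · funext i
            have h1 := (hw2 g i (g i)).2 rfl
            rw [hg, hw2 g' i (g i)] at h1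
            exact h1.symm
          · have hex : ∀ i, ∃ j, Arr G w' (α i) (β j) := by
              intro i
              obtain ⟨b, hb, h1⟩ := h.val w' hw' (α i) (hαm i)
              obtain ⟨j, rfl⟩ := hβs b hb
              exact ⟨j, h1⟩
            choose g hg using hex
            refine ⟨g, Set.mem_univ _, h.ext _ (hw1 g) _ hw' ?_⟩
            intro a ha b hb
            obtain ⟨i, rfl⟩ := hαs a ha
            obtain ⟨j, rfl⟩ := hβs b hb
            rw [hw2]
            constructor
            · rintro rfl
              exact hg i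
            · intro h1
              exact hβi _ _ (h.valu w' hw' (α i) (hαm i) _ (hβm _) _ (hβm _) (hg i) h1)
        lt_iff := hlt
        arr_iff := hw2
        acc := acc
        acc_iff := by
          intro z q x y
          constructor
          · intro h1
            exact hβi _ _ (h.accu _ (hβm z) _ (hβm q) _ (hβm x) _ (hβm _) _ (hβm _)
              (hacc z q x) h1)
          · rintro rfl
            exact hacc z q x
        acc_inj := by
          intro z z' q x h1
          have h2 := hacc z' q x
          rw [← h1] at h2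
          exact hβi _ _ (h.acci _ (hβm z) _ (hβm z') _ (hβm q) _ (hβm x) _ (hβm _)
            (hacc z q x) h2)
        acc_q := by
          intro z z' q q' x x' h1 h2
          have h3 := hacc z' q x'
          rw [← h1] at h3
          have h4 := hacc z' q' x'
          rw [← h2] at h4
          rcases h.accq _ (hβm z) _ (hβm z') _ (hβm q) _ (hβm q') _ (hβm x) _ (hβm x') _
            (hβm _) _ (hβm _) (hacc z q x) h3 (hacc z q' x) h4 with h5 | h5
          · exact Or.inl (hβi _ _ h5)
          · exact Or.inr (hβi _ _ h5) }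
  · -- the matching
    choose! m hm1 hm2 using h.mat
    refine Nat.card_le_card_of_injective
      (fun a : {v // v ∈ G.colour 1} => (⟨m a.1, hm1 _ a.2⟩ : {v // v ∈ G.colour 2})) ?_
    intro a a' haa
    have h1 : m a.1 = m a'.1 := congrArg Subtype.val haa
    refine Subtype.ext (h.matu _ a.2 _ a'.2 (m a.1) (hm1 _ a.2) (hm2 _ a.2) ?_)
    rw [h1]
    exact hm2 _ a'.2

end Pool.Agent.Y87.PL
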